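import Pool.Agent.Helper35.MS.StE

/-!
Project MS (MP_925021_gt), module EVB: smooth functions of `(|A|²,|H|²,Z,·)` are testable.
-/

set_option autoImplicit false

namespace Helper66.MS

open Helper35.MS Helper35.PI Helper35.PI2 Helper32.CL
open scoped ContDiff Manifold Topology ENNReal BigOperators
open MeasureTheory Set Filter

theorem hEVB (hMLJ : StMLJ) : StEVB := by
  intro N M _ _ _ J F hF φ hφ
  have hc : (cφ φ).Smooth := ⟨hφ, contDiff_const, contDiff_const, contDiff_const⟩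
  obtain ⟨h1, -, -, -, h5, h6, h7, -⟩ := hMLJ 2 N M J F hF 0 0 (cφ φ) hc
  have hg : ∀ t ∈ J, gdM 2 F t (fun q => φ (i4F 2 0 F q t)) = WFd 2 0 0 (cφ φ) F t := by
    intro t ht
    funext q
    exact ((h1 t ht).2.2.2.2 q).symm
  refine ⟨⟨h5, h6, h7, fun t ht => (h1 t ht).2.2.2.1, ?_, ?_⟩, ?_⟩
  · intro t ht
    rw [hg t ht]
    exact (h1 t ht).1
  · intro t ht q
    rw [hg t ht]
    exact (h1 t ht).2.1 q
  · intro q t ht
    rw [hg t ht]

end Helper66.MS
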